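import Pool.Agent.W994.PL2

/-!
# Languages that look for a block in an `NP` language are in `NP`
-/

set_option autoImplicit false

namespace Pool.Agent.W994.PL

open Pool.Agent.NPC Pool.Agent.H622R2 Pool.Agent.H620R2.Gauge

/-- the length of the blocks -/
def bl (K : ℕ) (x : List Bool) : ℕ := (x.length.bits.length - 1) ^ K

/-- the verifier -/
noncomputable def VB (K : ℕ) (V : List Bool → List Bool) (r : Polynomial ℕ)
    (v : List Bool) : List Bool :=
  if (valB (unpair (unpair v).2).1 + 1) * bl K (unpair v).1 ≤ (unpair v).1.length then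
    (if (unpair (unpair v).2).2.length ≤ r.eval (bl K (unpair v).1) then
      V (pairBits ((List.range (bl K (unpair v).1)).map (fun j =>
        (unpair v).1.getD (valB (unpair (unpair v).2).1 * bl K (unpair v).1 + j) false))
        (unpair (unpair v).2).2)
    else [])
  else []

theorem uPoly_bl (K : ℕ) : UPoly (bl K) :=
  uPoly_pow (uPoly_pred_length (NPC.Poly.natBits (Poly.length Poly.id))) K

theorem poly_VB (K : ℕ) {V : List Bool → List Bool} (hV : PolyTime V) (r : Polynomial ℕ) :
    Poly (VB K V r) := by
  have h0 := poly_of_polyTime hV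
  have hx : Poly (fun v => (unpair v).1) := Poly.fst poly_unpair
  have hb : UPoly (fun v => bl K (unpair v).1) := (uPoly_bl K).comp hx
  have hw : Poly (fun v => (unpair v).2) := Poly.snd poly_unpair
  have hi : Poly (fun v => valB (unpair (unpair v).2).1) :=
    Poly.valBits (Poly.fst (poly_unpair.comp hw))
  have hc : Poly (fun v => (unpair (unpair v).2).2) := Poly.snd (poly_unpair.comp hw)
  unfold VB
  refine Poly.ite (Poly.decide_le ?_ ?_) ?_ (NPC.Poly.const [])
  · exact Poly.mul (Poly.add hi (NPC.Poly.const 1)) hb.toPoly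
  · exact Poly.length hx
  · refine Poly.ite (Poly.decide_le ?_ ?_) ?_ (NPC.Poly.const [])
    · exact Poly.length hc
    · exact (UPoly.eval hb r).toPoly
    · refine h0.comp (poly_pairBits ?_ hc)
      refine NPC.Poly.map hb.range ?_
      refine NPC.Poly.getD (hx.comp (Poly.fst Poly.id)) ?_ (NPC.Poly.const false)
      exact NPC.Poly.add (NPC.Poly.mul (hi.comp (Poly.fst Poly.id))
        (hb.toPoly.comp (Poly.fst Poly.id))) (Poly.snd Poly.id)

theorem bl_eq (K : ℕ) (x : List Bool) : bl K x = (Nat.log 2 x.length) ^ K := by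
  unfold bl
  rw [bits_length_log]

theorem block_eq {x : List Bool} {i b : ℕ} (hi : (i + 1) * b ≤ x.length) :
    (List.range b).map (fun j => x.getD (i * b + j) false) = (x.drop (i * b)).take b := by
  have hi' : i * b + b ≤ x.length := by
    rw [← Nat.succ_mul]
    exact hi
  apply List.ext_getElem
  · simp
    omega
  · intro n h5 h6
    have hn : n < b := by simpa using h5
    rw [List.getElem_map, List.getElem_range, List.getElem_take,
      List.getElem_drop, List.getD_eq_getElem?_getD, List.getElem?_eq_getElem (by omega)]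
    rfl

theorem someBlock_inNP (K : ℕ) {H : Set (List Bool)} (hH : InNP H) : InNP (SomeBlock K H) := by
  obtain ⟨V, p, hV, hVH⟩ := hH
  refine ⟨VB K V p, Polynomial.C 2 * Polynomial.X + Polynomial.C 1 +
    p.comp (Polynomial.X ^ K), polyTime_of_poly_list (poly_VB K hV p), fun x => ?_⟩
  constructor
  · rintro ⟨i, hi1, hi2⟩
    have hcase : ∃ i, i ≤ x.length ∧ (i + 1) * (Nat.log 2 x.length) ^ K ≤ x.length ∧
        (x.drop (i * (Nat.log 2 x.length) ^ K)).take ((Nat.log 2 x.length) ^ K) ∈ H := by
      rcases Nat.eq_zero_or_pos ((Nat.log 2 x.length) ^ K) with h0 | h0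
      · rw [h0] at hi1 hi2 ⊢
        refine ⟨0, Nat.zero_le _, by simp, ?_⟩
        simpa using hi2
      · refine ⟨i, ?_, hi1, hi2⟩
        have : (i + 1) * 1 ≤ (i + 1) * (Nat.log 2 x.length) ^ K := Nat.mul_le_mul_left _ h0
        omega
    obtain ⟨i, hi0, hi1, hi2⟩ := hcase
    obtain ⟨c, hc1, hc2⟩ := (hVH _).1 hi2
    have hlen : ((x.drop (i * (Nat.log 2 x.length) ^ K)).take
        ((Nat.log 2 x.length) ^ K)).length ≤ (Nat.log 2 x.length) ^ K := by simp
    have hc3 := hc1.trans (eval_mono p hlen)
    refine ⟨pairBits i.bits c, ?_, ?_⟩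
    · rw [length_pairBits]
      have h5 : i.bits.length ≤ x.length := by
        rw [Nat.size_eq_bits_len, Nat.size_le]
        exact hi0.trans_lt Nat.lt_two_pow_self
      have h6 : p.eval ((Nat.log 2 x.length) ^ K) ≤ p.eval (x.length ^ K) :=
        eval_mono p (Nat.pow_le_pow_left (Nat.log_le_self 2 _) K)
      simp only [Polynomial.eval_add, Polynomial.eval_mul, Polynomial.eval_C,
        Polynomial.eval_X, Polynomial.eval_comp, Polynomial.eval_pow]
      omega
    · simp only [VB, unpair_pairBits, valB_bits, bl_eq]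
      rw [if_pos hi1, if_pos hc3, block_eq hi1]
      exact hc2
  · rintro ⟨w, _, hw2⟩
    simp only [VB, unpair_pairBits, bl_eq] at hw2
    split_ifs at hw2 with h5 h6
    · refine ⟨valB (unpair w).1, h5, ?_⟩
      rw [block_eq h5] at hw2
      have hlen : ((x.drop (valB (unpair w).1 * (Nat.log 2 x.length) ^ K)).take
          ((Nat.log 2 x.length) ^ K)).length = (Nat.log 2 x.length) ^ K := by
        have h7 : valB (unpair w).1 * (Nat.log 2 x.length) ^ K + (Nat.log 2 x.length) ^ K ≤
            x.length := by
          rw [← Nat.succ_mul]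
          exact h5
        simp
        omega
      exact (hVH _).2 ⟨_, by rw [hlen]; exact h6, hw2⟩

end Pool.Agent.W994.PL
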