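import Mathlib

/-!
# Arithmetic
-/

set_option autoImplicit false

namespace Pool.Agent.W994.PL

theorem pow_small {k : ℕ} (hk : 228 ≤ k) : 2 ^ 80 * (k + 2) ^ 8 ≤ 2 ^ k := by
  obtain ⟨m, hm⟩ : ∃ m, m = (k + 2) / 16 := ⟨_, rfl⟩
  have h1 : k + 2 < 16 * (m + 1) := by omega
  have h2 : m + 1 ≤ 2 ^ m := Nat.lt_two_pow_self
  have h3 : k + 2 ≤ 2 ^ (m + 4) := by
    calc k + 2 ≤ 16 * (m + 1) := h1.le
      _ ≤ 16 * 2 ^ m := Nat.mul_le_mul_left _ h2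
      _ = 2 ^ (m + 4) := by rw [pow_add]; ring
  calc 2 ^ 80 * (k + 2) ^ 8 ≤ 2 ^ 80 * (2 ^ (m + 4)) ^ 8 :=
        Nat.mul_le_mul_left _ (Nat.pow_le_pow_left h3 8)
    _ = 2 ^ (80 + (m + 4) * 8) := by rw [← pow_mul, ← pow_add]
    _ ≤ 2 ^ k := Nat.pow_le_pow_right (by norm_num) (by omega)

theorem exists_pow_le (c : ℕ) : ∃ l₀ : ℕ, ∀ l ≥ l₀, l ^ c ≤ 2 ^ l := by
  have h := tendsto_pow_const_div_const_pow_of_one_lt c (r := (2 : ℝ)) (by norm_num)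
  have h2 := h.eventually (gt_mem_nhds (show (0 : ℝ) < 1 by norm_num))
  obtain ⟨l₀, hl⟩ := Filter.eventually_atTop.1 h2
  refine ⟨l₀, fun l hl' => ?_⟩
  have h3 := hl l hl'
  rw [div_lt_one (by positivity)] at h3
  exact_mod_cast h3.le

/-- the estimates for the block length `(log N) ^ (17 A)` and circuits of size `2 ^ (log N) ^ A` -/
theorem estimates (A : ℕ) (hA : 1 ≤ A) : ∃ n₀ : ℕ, ∀ N ≥ n₀,
    2 ^ 64 * (Nat.log 2 ((Nat.log 2 N) ^ A + 1) + 1) ^ 8 * ((Nat.log 2 N) ^ A + 1) ^ 16 ≤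
      (Nat.log 2 N) ^ (17 * A) ∧
    N ≤ (Nat.log 2 N) ^ (5 * A) * ((N / (Nat.log 2 N) ^ (17 * A)) *
      ((Nat.log 2 N) ^ (17 * A) /
        (2 ^ 23 * (Nat.log 2 ((Nat.log 2 N) ^ A + 1) + 1) ^ 2 *
          ((Nat.log 2 N) ^ A + 1) ^ 4))) ∧
    2 ≤ (Nat.log 2 N) ^ A + 1 := by
  obtain ⟨l₀, hl₀⟩ := exists_pow_le (17 * A)
  refine ⟨2 ^ (l₀ + 2 ^ 228), fun N hN => ?_⟩
  obtain ⟨l, hl⟩ : ∃ l, l = Nat.log 2 N := ⟨_, rfl⟩
  rw [← hl]
  have hNpos : N ≠ 0 := by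
    have : 0 < 2 ^ (l₀ + 2 ^ 228) := by positivity
    omega
  have hl1 : l₀ + 2 ^ 228 ≤ l := by
    rw [hl]
    exact Nat.le_log_of_pow_le (by norm_num) hN
  have hl2 : 2 ^ l ≤ N := by
    rw [hl]
    exact Nat.pow_log_le_self 2 hNpos
  obtain ⟨y, hy⟩ : ∃ y, y = l ^ A := ⟨_, rfl⟩
  have hyl : l ≤ y := by
    rw [hy]
    calc l = l ^ 1 := (pow_one l).symm
      _ ≤ l ^ A := Nat.pow_le_pow_right (by
          have : 0 < 2 ^ 228 := by positivity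
          omega) hA
  have hy1 : 2 ^ 228 ≤ y := by omega
  have e17 : l ^ (17 * A) = y ^ 17 := by rw [hy, ← pow_mul, mul_comm]
  have e5 : l ^ (5 * A) = y ^ 5 := by rw [hy, ← pow_mul, mul_comm]
  rw [e17, e5, ← hy]
  have hb : y ^ 17 ≤ N := by
    rw [← e17]
    exact (hl₀ l (by omega)).trans hl2
  obtain ⟨k, hk⟩ : ∃ k, k = Nat.log 2 y := ⟨_, rfl⟩
  have hypos : y ≠ 0 := by
    have : 0 < 2 ^ 228 := by positivity
    omega
  have hk1 : 228 ≤ k := by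
    rw [hk]
    exact Nat.le_log_of_pow_le (by norm_num) hy1
  have hk2 : 2 ^ k ≤ y := by
    rw [hk]
    exact Nat.pow_log_le_self 2 hypos
  have hd : y + 1 ≤ 2 * y := by omega
  have hu : Nat.log 2 (y + 1) + 1 ≤ k + 2 := by
    have h1 : Nat.log 2 (y + 1) ≤ Nat.log 2 (y * 2) := Nat.log_mono_right (by omega)
    rw [Nat.log_mul_base (by norm_num) hypos] at h1
    omega
  have hsm : 2 ^ 80 * (k + 2) ^ 8 ≤ y := (pow_small hk1).trans hk2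
  refine ⟨?_, ?_, by omega⟩
  · calc 2 ^ 64 * (Nat.log 2 (y + 1) + 1) ^ 8 * (y + 1) ^ 16
        ≤ 2 ^ 64 * (k + 2) ^ 8 * (2 * y) ^ 16 :=
          Nat.mul_le_mul (Nat.mul_le_mul_left _ (Nat.pow_le_pow_left hu 8))
            (Nat.pow_le_pow_left hd 16)
      _ = (2 ^ 80 * (k + 2) ^ 8) * y ^ 16 := by ring
      _ ≤ y * y ^ 16 := Nat.mul_le_mul_right _ hsm
      _ = y ^ 17 := by ring
  · obtain ⟨z, hz⟩ : ∃ z, z = 2 ^ 23 * (Nat.log 2 (y + 1) + 1) ^ 2 * (y + 1) ^ 4 := ⟨_, rfl⟩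
    rw [← hz]
    have hzpos : 0 < z := by
      rw [hz]
      positivity
    have h4z : 4 * z ≤ y ^ 5 := by
      rw [hz]
      calc 4 * (2 ^ 23 * (Nat.log 2 (y + 1) + 1) ^ 2 * (y + 1) ^ 4)
          ≤ 4 * (2 ^ 23 * (k + 2) ^ 2 * (2 * y) ^ 4) :=
            Nat.mul_le_mul_left _ (Nat.mul_le_mul (Nat.mul_le_mul_left _
              (Nat.pow_le_pow_left hu 2)) (Nat.pow_le_pow_left hd 4))
        _ = (2 ^ 29 * (k + 2) ^ 2) * y ^ 4 := by ring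
        _ ≤ (2 ^ 80 * (k + 2) ^ 8) * y ^ 4 := by
            refine Nat.mul_le_mul_right _ (Nat.mul_le_mul ?_ ?_)
            · exact Nat.pow_le_pow_right (by norm_num) (by norm_num)
            · exact Nat.pow_le_pow_right (by omega) (by norm_num)
        _ ≤ y * y ^ 4 := Nat.mul_le_mul_right _ hsm
        _ = y ^ 5 := by ring
    have hzb : z ≤ y ^ 17 := by
      have : y ^ 5 ≤ y ^ 17 := Nat.pow_le_pow_right (by omega) (by norm_num)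
      omega
    have hbpos : 0 < y ^ 17 := Nat.pow_pos (by omega)
    have h1 : N ≤ 2 * y ^ 17 * (N / y ^ 17) := by
      have h2 := Nat.lt_mul_div_succ N hbpos
      have h3 : 1 ≤ N / y ^ 17 := Nat.div_pos hb hbpos
      calc N ≤ y ^ 17 * (N / y ^ 17 + 1) := h2.le
        _ ≤ y ^ 17 * (2 * (N / y ^ 17)) := Nat.mul_le_mul_left _ (by omega)
        _ = _ := by ring
    have h4 : y ^ 17 ≤ 2 * z * (y ^ 17 / z) := by
      have h2 := Nat.lt_mul_div_succ (y ^ 17) hzpos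
      have h3 : 1 ≤ y ^ 17 / z := Nat.div_pos hzb hzpos
      calc y ^ 17 ≤ z * (y ^ 17 / z + 1) := h2.le
        _ ≤ z * (2 * (y ^ 17 / z)) := Nat.mul_le_mul_left _ (by omega)
        _ = _ := by ring
    calc N ≤ 2 * y ^ 17 * (N / y ^ 17) := h1
      _ ≤ 2 * (2 * z * (y ^ 17 / z)) * (N / y ^ 17) :=
          Nat.mul_le_mul_right _ (Nat.mul_le_mul_left _ h4)
      _ = 4 * z * (N / y ^ 17 * (y ^ 17 / z)) := by ring
      _ ≤ y ^ 5 * (N / y ^ 17 * (y ^ 17 / z)) := Nat.mul_le_mul_right _ h4z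

end Pool.Agent.W994.PL
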