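import Pool.Agent.H620R2.Gauge.U1

/-!
# Polynomial space relative to oracles, uniformly in the oracle
-/

set_option autoImplicit false

namespace Pool.Agent.W994.PL

open Pool.Agent.NPC Pool.Agent.H622R2 Pool.Agent.H620R2.Gauge

/-- a relation between oracles and strings, decided in polynomial space by one algorithm for all
oracles -/
def UPS (S : Oracle → List Bool → Prop) : Prop :=
  ∃ (M : SAlg) (p : Polynomial ℕ), ∀ (A : Oracle) (x : List Bool),
    (∀ s, M.Reach A x s → s.length ≤ p.eval x.length) ∧
    ∃ s z, M.Reach A x s ∧ M.act (pairBits x s) = true :: z ∧ (S A x ↔ z = [true])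

theorem ups_of_alg (M : Alg) (V : Oracle → List Bool → List Bool)
    (hM : ∀ A x, M.out A x = some (V A x)) : UPS (fun A x => V A x = [true]) := by
  let N : SAlg := ⟨uAct M.D, poly_uAct M.poly, uNext, poly_uNext⟩
  refine ⟨N, M.p, fun A x => ?_⟩
  -- contents with `n` rounds left
  have key : ∀ (n : ℕ) (a : List Bool), N.Reach A x a → M.run A x n a = some (V A x) →
      ∃ s z, N.Reach A x s ∧ N.act (pairBits x s) = true :: z ∧ z = V A x := by
    intro n
    induction n with
    | zero => intro a _ h; simp [Alg.run] at h
    | succ n ih =>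
      intro a ha h
      rcases hq : M.D (pairBits x a) with _ | ⟨c, q⟩
      · simp only [Alg.run, hq, Option.some.injEq] at h
        exact ⟨a, [], ha, by simp [N, uAct, hq], h⟩
      · cases c with
        | true =>
          simp only [Alg.run, hq, Option.some.injEq] at h
          exact ⟨a, q, ha, by simp [N, uAct, hq], h⟩
        | false =>
          simp only [Alg.run, hq] at h
          refine ih (a ++ [A q]) ?_ h
          have h1 : N.act (pairBits x a) = false :: q := by simp [N, uAct, hq]
          have h2 := ha.step h1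
          have h3 : N.next (pairBits x (A q :: a)) = a ++ [A q] := uNext_pair x a (A q)
          rwa [h3] at h2
  have hlen : ∀ s, N.Reach A x s → ∃ n, n + s.length = M.p.eval x.length ∧
      M.run A x n s = M.run A x (M.p.eval x.length) [] := by
    intro s hs
    induction hs with
    | start => exact ⟨M.p.eval x.length, by simp, rfl⟩
    | @step s q hs h ih =>
      obtain ⟨n, h1, h2⟩ := ih
      have h3 : M.D (pairBits x s) = false :: q := by
        have : uAct M.D (pairBits x s) = false :: q := h
        unfold uAct at this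
        split_ifs at this with h4
        · simp at this
        · exact this
      cases n with
      | zero =>
        exfalso
        have h5 := hM A x
        unfold Alg.out at h5
        rw [← h2] at h5
        simp [Alg.run] at h5
      | succ n =>
        refine ⟨n, ?_, ?_⟩
        · have h3' : N.next (pairBits x (A q :: s)) = s ++ [A q] := uNext_pair x s (A q)
          rw [h3', List.length_append, List.length_singleton]
          omega
        · rw [← h2]
          have h3' : N.next (pairBits x (A q :: s)) = s ++ [A q] := uNext_pair x s (A q)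
          rw [h3']
          simp only [Alg.run, h3]
  refine ⟨fun s hs => ?_, ?_⟩
  · obtain ⟨n, h1, _⟩ := hlen s hs
    omega
  · obtain ⟨s, z, h1, h2, h3⟩ := key _ [] SAlg.Reach.start (hM A x)
    exact ⟨s, z, h1, h2, by rw [h3]⟩

theorem ups_tt {Q : List Bool → List (List Bool)} {H : List Bool × List Bool → List Bool}
    (hQ : Poly Q) (hH : Poly H) : UPS (fun A x => H (x, (Q x).map A) = [true]) := by
  obtain ⟨q, hq⟩ := hQ.sz_le
  refine ups_of_alg (A2.ttAlg hQ hH (q.comp (Polynomial.C 4 * Polynomial.X + Polynomial.C 1)))
    (fun A x => H (x, (Q x).map A)) fun A x => ?_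
  have h1 := length_lt_sz (Q x)
  have h2 : (Q x).length + 1 ≤
      (q.comp (Polynomial.C 4 * Polynomial.X + Polynomial.C 1)).eval x.length :=
    A2.sz_eval_le (h1.trans_le (hq x))
  exact A2.tt_run hQ hH (q.comp (Polynomial.C 4 * Polynomial.X + Polynomial.C 1)) A x
    ((q.comp (Polynomial.C 4 * Polynomial.X + Polynomial.C 1)).eval x.length) 0 (Nat.zero_le _)
    (by omega)

open U1 in
/-- closure under existential quantifiers over short strings. -/
theorem UPS.exists_short {S : Oracle → List Bool → Prop} (h : UPS S)
    {β : List Bool → ℕ} (hβ : UPoly β) :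
    UPS (fun A y => ∃ w : List Bool, w.length ≤ β y ∧ S A (pairBits w y)) := by
  obtain ⟨M, p, hM⟩ := h
  obtain ⟨q, hq⟩ := Poly.sz_le hβ
  have hqb : ∀ y, β y ≤ (q.comp (Polynomial.C 4 * Polynomial.X + Polynomial.C 1)).eval y.length := by
    intro y
    refine A2.sz_eval_le ?_
    have h1 := length_lt_sz (List.replicate (β y) ())
    rw [List.length_replicate] at h1
    exact h1.le.trans (hq y)
  let N : SAlg := ⟨eAct M β, polyTime_of_poly_list (poly_eAct M hβ),
    fun v => bits (eNext M v), polyTime_bits (poly_eNext M)⟩
  refine ⟨N, Polynomial.C 4 * (q.comp (Polynomial.C 4 * Polynomial.X + Polynomial.C 1) +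
    Polynomial.C 1) + Polynomial.C 1 + (Polynomial.C 4 * p.comp (Polynomial.C 2 *
    q.comp (Polynomial.C 4 * Polynomial.X + Polynomial.C 1) + Polynomial.C 1 + Polynomial.X) +
    Polynomial.C 1) + Polynomial.C 1, fun A y => ?_⟩
  have hact : ∀ s, N.act (pairBits y s) = eA M β y (dst s) := fun s => eAct_pair M β y s
  have hnext : ∀ b s, N.next (pairBits y (b :: s)) = bits (eN M y b (dst s)) := fun b s => by
    show bits (eNext M (pairBits y (b :: s))) = _
    rw [eNext_pair]
  -- the memory of the given algorithm occurs
  have inv : ∀ s, N.Reach A y s → 1 ≤ (dst s).1 ∧ (dst s).1.bits.length ≤ β y + 1 ∧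
      M.Reach A (pairBits (cand (dst s).1) y) (dst s).2 ∧ (s = [] ∨ s = bits (dst s)) := by
    intro s hs
    induction hs with
    | start =>
        rw [dst_nil]
        exact ⟨le_rfl, by simp, SAlg.Reach.start, Or.inl rfl⟩
    | @step s r hs hr ih =>
        obtain ⟨h1, h2, h3, h4⟩ := ih
        rw [hact] at hr
        rw [hnext, dst_bits]
        unfold eA at hr
        unfold eN
        by_cases c1 : inAct M y (dst s) = [true, true]
        · rw [if_pos c1] at hr
          simp at hr
        rw [if_neg c1] at hr
        by_cases c2 : (inAct M y (dst s)).head? = some true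
        · rw [if_pos c2] at hr ⊢
          by_cases c3 : β y + 1 < ((dst s).1 + 1).bits.length
          · rw [if_pos c3] at hr
            simp at hr
          · exact ⟨by simp, not_lt.1 c3, SAlg.Reach.start, Or.inr rfl⟩
        · rw [if_neg c2] at hr ⊢
          exact ⟨h1, h2, SAlg.Reach.step h3 hr, Or.inr rfl⟩
  -- simulation
  have sim : ∀ n s, N.Reach A y s → dst s = (n, []) → ∀ t, M.Reach A (pairBits (cand n) y) t →
      ∃ s', N.Reach A y s' ∧ dst s' = (n, t) := by
    intro n s hs hd t ht
    induction ht with
    | start => exact ⟨s, hs, hd⟩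
    | @step t r ht hr ih =>
        obtain ⟨s', h1, h2⟩ := ih
        have hin : inAct M y (n, t) = false :: r := hr
        have h3 : N.act (pairBits y s') = false :: r := by
          rw [hact, h2]
          simp [eA, hin]
        have h4 := SAlg.Reach.step h1 h3
        refine ⟨_, h4, ?_⟩
        rw [hnext, dst_bits, h2]
        simp [eN, hin]
  have adv : ∀ n s, N.Reach A y s → dst s = (n, []) → ¬ S A (pairBits (cand n) y) →
      (n + 1).bits.length ≤ β y + 1 → ∃ s', N.Reach A y s' ∧ dst s' = (n + 1, []) := by
    intro n s hs hd hn hlen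
    obtain ⟨_, t, z, h2, h3, h4⟩ := hM A (pairBits (cand n) y)
    obtain ⟨s', h5, h6⟩ := sim n s hs hd t h2
    have hz : z ≠ [true] := fun hz => hn (h4.2 hz)
    have hin : inAct M y (n, t) = true :: z := h3
    have h7 : N.act (pairBits y s') = false :: [] := by
      rw [hact, h6]
      unfold eA
      rw [hin, if_neg (by simpa using hz), if_pos (by simp), if_neg (by simpa using hlen)]
    have h8 := SAlg.Reach.step h5 h7
    refine ⟨_, h8, ?_⟩
    rw [hnext, dst_bits, h6]
    simp [eN, hin]
  have reach : ∀ n, 1 ≤ n → n.bits.length ≤ β y + 1 →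
      (∀ m, 1 ≤ m → m < n → ¬ S A (pairBits (cand m) y)) →
      ∃ s, N.Reach A y s ∧ dst s = (n, []) := by
    intro n hn
    induction n, hn using Nat.le_induction with
    | base => exact fun _ _ => ⟨[], SAlg.Reach.start, dst_nil⟩
    | succ n hn ih =>
        intro h1 h2
        obtain ⟨s, h3, h4⟩ := ih ((bits_length_mono (Nat.le_succ n)).trans h1)
          fun m hm hm' => h2 m hm (by omega)
        exact adv n s h3 h4 (h2 n hn (by omega)) h1
  refine ⟨fun s hs => ?_, ?_⟩
  · obtain ⟨h1, h2, h3, h4⟩ := inv s hs
    rcases h4 with h4 | h4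
    · rw [h4]
      simp
    · rw [h4, bits_length]
      generalize dst s = t at h1 h2 h3
      obtain ⟨n, t⟩ := t
      rw [sz_pair]
      have e1 := sz_nat_le n
      rw [← Nat.size_eq_bits_len] at e1
      have e2 := sz_listBool_le t
      have e3 := (hM A (pairBits (cand n) y)).1 t h3
      have e4 : (pairBits (cand n) y).length ≤ (Polynomial.C 2 *
          q.comp (Polynomial.C 4 * Polynomial.X + Polynomial.C 1) + Polynomial.C 1 +
          Polynomial.X).eval y.length := by
        rw [length_pairBits, length_cand]
        have := hqb y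
        simp only [Polynomial.eval_add, Polynomial.eval_mul, Polynomial.eval_C,
          Polynomial.eval_X] at this ⊢
        simp only at h2
        omega
      have e5 := eval_mono p e4
      have e6 := hqb y
      simp only at h2
      rw [Polynomial.eval_add, Polynomial.eval_add, Polynomial.eval_add, Polynomial.eval_add,
        Polynomial.eval_mul, Polynomial.eval_add, Polynomial.eval_mul, Polynomial.eval_comp (p := p)]
      simp only [Polynomial.eval_C]
      omega
  · by_cases hex : ∃ n, 1 ≤ n ∧ n.bits.length ≤ β y + 1 ∧ S A (pairBits (cand n) y)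
    · classical
      obtain ⟨h1, h2, h3⟩ := Nat.find_spec hex
      obtain ⟨s, h4, h5⟩ := reach (Nat.find hex) h1 h2 fun m hm hm' hL =>
        Nat.find_min hex hm' ⟨hm, (bits_length_mono hm'.le).trans h2, hL⟩
      obtain ⟨_, t, z, h6, h7, h8⟩ := hM A (pairBits (cand (Nat.find hex)) y)
      obtain ⟨s', h9, h10⟩ := sim _ s h4 h5 t h6
      have hz : z = [true] := h8.1 h3
      have hin : inAct M y (Nat.find hex, t) = [true, true] := by rw [← hz]; exact h7
      refine ⟨s', [true], h9, ?_, ?_⟩
      · rw [hact, h10]
        simp [eA, hin]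
      · refine ⟨fun _ => rfl, fun _ => ⟨cand (Nat.find hex), ?_, h3⟩⟩
        rw [length_cand]
        omega
    · have hlast : (2 ^ (β y + 1) - 1).bits.length ≤ β y + 1 := by
        rw [Nat.size_eq_bits_len, Nat.size_le]
        have : 0 < 2 ^ (β y + 1) := by positivity
        omega
      have hpos : 1 ≤ 2 ^ (β y + 1) - 1 := by
        have : 2 ^ 1 ≤ 2 ^ (β y + 1) := Nat.pow_le_pow_right (by norm_num) (by omega)
        omega
      have hno : ∀ m, 1 ≤ m → m.bits.length ≤ β y + 1 → ¬ S A (pairBits (cand m) y) :=
        fun m h1 h2 h3 => hex ⟨m, h1, h2, h3⟩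
      obtain ⟨s, h4, h5⟩ := reach _ hpos hlast fun m hm hm' =>
        hno m hm ((bits_length_mono hm'.le).trans hlast)
      obtain ⟨_, t, z, h6, h7, h8⟩ := hM A (pairBits (cand (2 ^ (β y + 1) - 1)) y)
      obtain ⟨s', h9, h10⟩ := sim _ s h4 h5 t h6
      have hz : z ≠ [true] := fun hz => hno _ hpos hlast (h8.2 hz)
      have hin : inAct M y (2 ^ (β y + 1) - 1, t) = true :: z := h7
      refine ⟨s', [], h9, ?_, ?_⟩
      · rw [hact, h10]
        unfold eA
        rw [hin, if_neg (by simpa using hz), if_pos (by simp), if_pos]
        rw [Nat.size_eq_bits_len]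
        have : 2 ^ (β y + 1) - 1 + 1 = 2 ^ (β y + 1) := by omega
        simp only [this]
        exact Nat.lt_size.2 le_rfl
      · refine ⟨?_, fun h => by simp at h⟩
        rintro ⟨w, hw, hwL⟩
        obtain ⟨n, h11, h12, h13⟩ := exists_cand w
        exact absurd hwL (by rw [← h13]; exact hno n h11 (by omega))

end Pool.Agent.W994.PL
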