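import Pool.Agent.H620R2.Gauge.Defs
import Pool.Agent.NPC.Num

/-!
# Polylogarithmic space; languages that look at short blocks of the input
-/

set_option autoImplicit false

namespace Pool.Agent.W994.PL

open Pool.Agent.NPC Pool.Agent.H620R2.Gauge

/-- The input `x` as an oracle: the answer to the question `q` is the bit of `x` whose number is
written in binary as `q` (least significant digit first); it is `false` if there is no such bit. -/
def inputBit (x : List Bool) : Oracle := fun q => x.getD (valB q) false

/-- **Polylogarithmic space** (`POLYLOGSPACE`). A space-bounded algorithm (`SAlg`) gets the length
of the input `x`, written in binary; it works on a memory, and the only thing it can do with the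
input is to ask for a bit of `x` with a number determined by the present content of the memory.
The next question and the next content of the memory are computed in time polynomial in the length
of the memory and of the binary notation of `|x|`. The length of the memory is bounded by a
polynomial in the length of the binary notation of `|x|`, that is, by a polynomial in `log |x|`.
There is no bound on the number of steps. -/
def PolylogSpace (L : Set (List Bool)) : Prop :=
  ∃ (M : SAlg) (p : Polynomial ℕ), ∀ x : List Bool,
    (∀ s, M.Reach (inputBit x) (Nat.bits x.length) s →
      s.length ≤ p.eval (Nat.bits x.length).length) ∧
    ∃ s z, M.Reach (inputBit x) (Nat.bits x.length) s ∧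
      M.act (pairBits (Nat.bits x.length) s) = true :: z ∧ (x ∈ L ↔ z = [true])

/-- Cut the word `x` into blocks of length `b` (a rest is ignored): some block is in `H`. -/
def InBlock (b : ℕ) (H : Set (List Bool)) (x : List Bool) : Prop :=
  ∃ i, (i + 1) * b ≤ x.length ∧ (x.drop (i * b)).take b ∈ H

/-- The words `x` that have, when cut into blocks of length `(log₂ |x|) ^ K`, a block in `H`. -/
def SomeBlock (K : ℕ) (H : Set (List Bool)) : Set (List Bool) :=
  {x | InBlock ((Nat.log 2 x.length) ^ K) H x}

end Pool.Agent.W994.PL
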