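import Pool.Agent.W994.PL1
import Pool.Agent.W994.PLDefs

/-!
# Languages that look for a block in an `NP` language are in `POLYLOGSPACE`
-/

set_option autoImplicit false

namespace Pool.Agent.W994.PL

open Pool.Agent.NPC Pool.Agent.H622R2 Pool.Agent.H620R2.Gauge

/-- a string decoded as: number of the block, certificate, length of the input, length of the
blocks -/
def num (v : List Bool) : ℕ := valB (unpair (unpair v).1).1
def cer (v : List Bool) : List Bool := (unpair (unpair v).1).2
def len (v : List Bool) : ℕ := valB (unpair v).2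
def blk (K : ℕ) (v : List Bool) : ℕ := ((unpair v).2.length - 1) ^ K

/-- the questions -/
def Qs (K : ℕ) (v : List Bool) : List (List Bool) :=
  (List.range (blk K v)).map (fun j => (num v * blk K v + j).bits)

/-- the evaluation of the answers -/
noncomputable def Hs (K : ℕ) (V : List Bool → List Bool) (r : Polynomial ℕ)
    (p : List Bool × List Bool) : List Bool :=
  if (num p.1 + 1) * blk K p.1 ≤ len p.1 then
    (if (cer p.1).length ≤ r.eval (blk K p.1) then V (pairBits p.2 (cer p.1)) else []) else []

theorem uPoly_pred_length {l : List Bool → List Bool} (hl : Poly l) :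
    UPoly (fun v => (l v).length - 1) := by
  have h := UPoly.length (Poly.tail hl)
  have e : (fun v => ((l v).tail).length) = fun v => (l v).length - 1 := by
    funext v
    simp
  rwa [e] at h

theorem uPoly_pow {α : Type} [TEnc α] {n : α → ℕ} (hn : UPoly n) (K : ℕ) :
    UPoly (fun a => n a ^ K) := by
  induction K with
  | zero => simpa using (UPoly.const 1 : UPoly (fun _ : α => 1))
  | succ K ih =>
      simp only [pow_succ]
      exact UPoly.mul ih hn

theorem uPoly_blk (K : ℕ) : UPoly (blk K) :=
  uPoly_pow (uPoly_pred_length (Poly.snd poly_unpair)) K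

theorem poly_num : Poly num :=
  Poly.valBits (Poly.fst (poly_unpair.comp (Poly.fst poly_unpair)))

theorem poly_cer : Poly cer := Poly.snd (poly_unpair.comp (Poly.fst poly_unpair))

theorem poly_len : Poly len := Poly.valBits (Poly.snd poly_unpair)

theorem poly_Qs (K : ℕ) : Poly (Qs K) := by
  have h1 := (uPoly_blk K).toPoly
  have h2 := (uPoly_blk K).range
  have h3 := poly_num
  unfold Qs
  refine NPC.Poly.map h2 ?_
  refine NPC.Poly.natBits ?_
  exact NPC.Poly.add (NPC.Poly.mul (h3.comp (Poly.fst Poly.id)) (h1.comp (Poly.fst Poly.id)))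
    (Poly.snd Poly.id)

theorem poly_Hs (K : ℕ) {V : List Bool → List Bool} (hV : PolyTime V) (r : Polynomial ℕ) :
    Poly (Hs K V r) := by
  have h0 := poly_of_polyTime hV
  have h1 := (uPoly_blk K).toPoly
  have h2 := (UPoly.eval (uPoly_blk K) r).toPoly
  have h3 := poly_num
  have h4 := poly_cer
  have h5 := poly_len
  unfold Hs
  refine Poly.ite (Poly.decide_le ?_ ?_) ?_ (NPC.Poly.const [])
  · exact Poly.mul (Poly.add (h3.comp (Poly.fst Poly.id)) (NPC.Poly.const 1))
      (h1.comp (Poly.fst Poly.id))
  · exact h5.comp (Poly.fst Poly.id)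
  · refine Poly.ite (Poly.decide_le ?_ ?_) ?_ (NPC.Poly.const [])
    · exact Poly.length (h4.comp (Poly.fst Poly.id))
    · exact h2.comp (Poly.fst Poly.id)
    · exact h0.comp (poly_pairBits (Poly.snd Poly.id) (h4.comp (Poly.fst Poly.id)))

/-- the bound for the length of the guessed string -/
noncomputable def bd (K : ℕ) (p : Polynomial ℕ) (y : List Bool) : ℕ :=
  2 * y.length + 1 + p.eval ((y.length - 1) ^ K)

theorem uPoly_bd (K : ℕ) (p : Polynomial ℕ) : UPoly (bd K p) :=
  UPoly.add (UPoly.add (UPoly.mul (UPoly.const 2) (UPoly.length Poly.id)) (UPoly.const 1))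
    (UPoly.eval (uPoly_pow (uPoly_pred_length Poly.id) K) p)

theorem bits_length_log (n : ℕ) : n.bits.length - 1 = Nat.log 2 n := by
  rw [Nat.size_eq_bits_len]
  rcases Nat.eq_zero_or_pos n with rfl | hn
  · simp
  · have h1 : n.size ≤ Nat.log 2 n + 1 := Nat.size_le.2 (Nat.lt_pow_succ_log_self (by norm_num) n)
    have h2 : Nat.log 2 n < n.size := Nat.lt_size.2 (Nat.pow_log_le_self 2 hn.ne')
    omega

theorem someBlock_polylogSpace (K : ℕ) {H : Set (List Bool)} (hH : InNP H) :
    PolylogSpace (SomeBlock K H) := by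
  obtain ⟨V, p, hV, hVH⟩ := hH
  obtain ⟨M, r, hM⟩ := (ups_tt (poly_Qs K) (poly_Hs K hV p)).exists_short (uPoly_bd K p)
  refine ⟨M, r, fun x => ?_⟩
  obtain ⟨h1, s, z, h2, h3, h4⟩ := hM (inputBit x) (Nat.bits x.length)
  refine ⟨h1, s, z, h2, h3, ?_⟩
  rw [← h4]
  have hlog := bits_length_log x.length
  have hx : ∀ (i j : ℕ), i * (Nat.log 2 x.length) ^ K + j < x.length →
      inputBit x (i * (Nat.log 2 x.length) ^ K + j).bits =
        x.getD (i * (Nat.log 2 x.length) ^ K + j) false := by
    intro i j _
    unfold inputBit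
    rw [valB_bits]
  have hblock : ∀ i, (i + 1) * (Nat.log 2 x.length) ^ K ≤ x.length →
      (List.range ((Nat.log 2 x.length) ^ K)).map
        (fun j => inputBit x (i * (Nat.log 2 x.length) ^ K + j).bits) =
      (x.drop (i * (Nat.log 2 x.length) ^ K)).take ((Nat.log 2 x.length) ^ K) := by
    intro i hi
    have hi' : i * (Nat.log 2 x.length) ^ K + (Nat.log 2 x.length) ^ K ≤ x.length := by
      rw [← Nat.succ_mul]
      exact hi
    apply List.ext_getElem
    · simp
      omega
    · intro n h5 h6
      have hn : n < (Nat.log 2 x.length) ^ K := by simpa using h5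
      rw [List.getElem_map, List.getElem_range, hx i n (by omega), List.getElem_take,
        List.getElem_drop, List.getD_eq_getElem?_getD, List.getElem?_eq_getElem (by omega)]
      rfl
  constructor
  · rintro ⟨i, hi1, hi2⟩
    -- a block number that is not too large
    have hcase : ∃ i, i ≤ x.length ∧ (i + 1) * (Nat.log 2 x.length) ^ K ≤ x.length ∧
        (x.drop (i * (Nat.log 2 x.length) ^ K)).take ((Nat.log 2 x.length) ^ K) ∈ H := by
      rcases Nat.eq_zero_or_pos ((Nat.log 2 x.length) ^ K) with h0 | h0
      · rw [h0] at hi1 hi2 ⊢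
        refine ⟨0, Nat.zero_le _, by simp, ?_⟩
        simpa using hi2
      · refine ⟨i, ?_, hi1, hi2⟩
        have : (i + 1) * 1 ≤ (i + 1) * (Nat.log 2 x.length) ^ K := Nat.mul_le_mul_left _ h0
        omega
    obtain ⟨i, hi0, hi1, hi2⟩ := hcase
    obtain ⟨c, hc1, hc2⟩ := (hVH _).1 hi2
    refine ⟨pairBits i.bits c, ?_, ?_⟩
    · rw [length_pairBits]
      unfold bd
      have h5 : i.bits.length ≤ (Nat.bits x.length).length := U1.bits_length_mono hi0
      have h6 : c.length ≤ p.eval ((Nat.log 2 x.length) ^ K) := by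
        refine hc1.trans (eval_mono p ?_)
        simp
      rw [hlog]
      omega
    · simp only [Hs, Qs, num, cer, len, blk, unpair_pairBits, valB_bits, hlog]
      have hlen : ((x.drop (i * (Nat.log 2 x.length) ^ K)).take
          ((Nat.log 2 x.length) ^ K)).length ≤ (Nat.log 2 x.length) ^ K := by simp
      rw [if_pos hi1, if_pos (hc1.trans (eval_mono p hlen)), List.map_map]
      have h7 := hblock i hi1
      simp only [Function.comp_def]
      rw [h7]
      exact hc2
  · rintro ⟨w, _, hw2⟩
    simp only [Hs, Qs, num, cer, len, blk, unpair_pairBits, valB_bits, hlog, List.map_map,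
      Function.comp_def] at hw2
    split_ifs at hw2 with h5 h6
    · refine ⟨valB (unpair w).1, h5, ?_⟩
      rw [hblock _ h5] at hw2
      have hlen : ((x.drop (valB (unpair w).1 * (Nat.log 2 x.length) ^ K)).take
          ((Nat.log 2 x.length) ^ K)).length = (Nat.log 2 x.length) ^ K := by
        have h7 : valB (unpair w).1 * (Nat.log 2 x.length) ^ K + (Nat.log 2 x.length) ^ K ≤
            x.length := by
          rw [← Nat.succ_mul]
          exact h5
        simp
        omega
      exact (hVH _).2 ⟨_, by rw [hlen]; exact h6, hw2⟩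

end Pool.Agent.W994.PL
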