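import Pool.Agent.H560R2.Real5
import Pool.Agent.W994.PLDefs

/-!
# Many copies of POLY in the blocks of a word, and the chain of inputs for real circuits
-/

set_option autoImplicit false

namespace Pool.Agent.W994.PL

open Finset Pool.Agent.H520R2.HC Pool.Agent.H560R2

/-- the word whose block number `i` is `G i` -/
def glue {b N : ℕ} (G : Fin (N / b) → Fin b → Bool) (p : Fin N) : Bool :=
  if h : p.val / b < N / b then
    G ⟨p.val / b, h⟩ ⟨p.val % b, Nat.mod_lt _ (by
      rcases Nat.eq_zero_or_pos b with hb | hb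
      · subst hb
        simp at h
      · exact hb)⟩
  else false

theorem glue_block {b N : ℕ} (hb : 0 < b) (G : Fin (N / b) → Fin b → Bool) (i : ℕ)
    (hi : i < N / b) : ((List.ofFn (glue G)).drop (i * b)).take b = List.ofFn (G ⟨i, hi⟩) := by
  have h1 : (i + 1) * b ≤ N := by
    have h2 : (i + 1) * b ≤ N / b * b := Nat.mul_le_mul_right _ hi
    exact h2.trans (Nat.div_mul_le_self N b)
  have h3 : i * b + b ≤ N := by
    rw [← Nat.succ_mul]
    exact h1
  apply List.ext_getElem
  · simp
    omega
  · intro n h4 h5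
    have hn : n < b := by simpa using h5
    rw [List.getElem_take, List.getElem_drop, List.getElem_ofFn, List.getElem_ofFn]
    unfold glue
    have h6 : (i * b + n) / b = i := by
      rw [mul_comm, Nat.mul_add_div hb, Nat.div_eq_of_lt hn, add_zero]
    have h7 : (i * b + n) % b = n := by
      rw [mul_comm, Nat.mul_add_mod, Nat.mod_eq_of_lt hn]
    have h8 : (i * b + n) / b < N / b := by rw [h6]; exact hi
    rw [dif_pos h8]
    have e1 : (⟨(i * b + n) / b, h8⟩ : Fin (N / b)) = ⟨i, hi⟩ := Fin.ext h6
    have e2 : (⟨(i * b + n) % b, Nat.mod_lt _ hb⟩ : Fin b) = ⟨n, hn⟩ := Fin.ext h7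
    show G ⟨(i * b + n) / b, h8⟩ ⟨(i * b + n) % b, _⟩ = G ⟨i, hi⟩ ⟨n, _⟩
    rw [e1, e2]

theorem inBlock_glue {b N : ℕ} (hb : 0 < b) (G : Fin (N / b) → Fin b → Bool)
    (H : Set (List Bool)) :
    InBlock b H (List.ofFn (glue G)) ↔ ∃ i : Fin (N / b), List.ofFn (G i) ∈ H := by
  unfold InBlock
  rw [List.length_ofFn]
  constructor
  · rintro ⟨i, h1, h2⟩
    have hi : i < N / b := by
      rw [← Nat.succ_le_iff, Nat.le_div_iff_mul_le hb]
      exact h1
    rw [glue_block hb G i hi] at h2
    exact ⟨⟨i, hi⟩, h2⟩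
  · rintro ⟨i, h1⟩
    refine ⟨i.val, ?_, ?_⟩
    · rw [← Nat.le_div_iff_mul_le hb]
      exact i.isLt
    · rw [glue_block hb G i.val i.isLt]
      exact h1

section

variable {N s : ℕ} {T : Finset (Fin s)} {w : Fin s → ℕ}
  {a : ∀ i, Fin (w i) → Fin N ⊕ Fin s}
  {op : ∀ i, (Fin (w i) → ℝ) → ℝ} {θ : ∀ i, Fin (w i) → ℝ} {val : (Fin N → Bool) → Fin s → ℝ}

/-- Real circuits for the blocks: many changes of the gates that are not monotone. -/
theorem block_real (d b : ℕ) (hd : 2 ≤ d)
    (hb : 2 ^ 64 * (Nat.log 2 d + 1) ^ 8 * d ^ 16 ≤ b)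
    (htop : ∀ i j k, a i j = Sum.inr k → k < i)
    (hmon : ∀ i ∉ T, w i ≤ 2 ∧ Monotone (op i))
    (hT : ∀ i ∈ T, ∀ z z' : Fin (w i) → ℝ, (∀ j, θ i j ≤ z j ↔ θ i j ≤ z' j) → op i z = op i z')
    (hval : ∀ x i, val x i = op i (fun j => Sum.elim (bit x) (val x) (a i j)))
    (o : Fin s) (τ : ℝ) (ho : ∀ x, τ ≤ val x o ↔ InBlock b HalfClique (List.ofFn x))
    (hsize : s + ∑ i ∈ T, w i < 2 ^ d) :
    ∃ x : ℕ → Fin N → Bool,
      (∀ i < (N / b) * (b / (2 ^ 23 * (Nat.log 2 d + 1) ^ 2 * d ^ 4)), x i ≤ x (i + 1) ∧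
        ∃ t ∈ T, ∃ j, ¬ (prb a θ val (x i) t j ↔ prb a θ val (x (i + 1)) t j)) ∧
      ∀ i ≤ (N / b) * (b / (2 ^ 23 * (Nat.log 2 d + 1) ^ 2 * d ^ 4)),
        ¬ InBlock b HalfClique (List.ofFn (x i)) := by
  classical
  have hbpos : 0 < b := by
    refine lt_of_lt_of_le ?_ hb
    positivity
  obtain ⟨lam, h0, h1, h2⟩ := exists_lam3 d (by omega)
  obtain ⟨F, _, _, _, hq⟩ := exists_field lam h0
  set q := 2 ^ lam with hqd
  set u := Nat.log 2 d + 1 with hu
  have hdq : d ≤ q := by
    refine le_trans ?_ h1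
    calc d = 1 * d * 1 := by ring
      _ ≤ 2 * d * (d * lam + 1) :=
        Nat.mul_le_mul (Nat.mul_le_mul_right _ (by norm_num)) (Nat.le_add_left 1 _)
  obtain ⟨m, E, hm, hmpos, hmono, hR, hnar⟩ := half_embed (F := F) b d q
    (2 ^ 23 * u ^ 2 * d ^ 4) (by omega) hq hdq (by
      rw [Nat.le_sqrt]
      calc 16 * q ^ 4 * (16 * q ^ 4) ≤ (16 * (128 * u * d ^ 2) ^ 4) *
            (16 * (128 * u * d ^ 2) ^ 4) :=
            Nat.mul_le_mul (Nat.mul_le_mul_left _ (Nat.pow_le_pow_left h2 4))
              (Nat.mul_le_mul_left _ (Nat.pow_le_pow_left h2 4))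
        _ = 2 ^ 64 * u ^ 8 * d ^ 16 := by ring
        _ ≤ b := hb) (by
      calc 512 * q ^ 2 ≤ 512 * (128 * u * d ^ 2) ^ 2 :=
            Nat.mul_le_mul_left _ (Nat.pow_le_pow_left h2 2)
        _ = _ := by ring)
  have hf0 : ¬ fPoly (F := F) d ∅ := by
    rintro ⟨c, hc⟩
    exact hc 0
  let e : Fin (N / b) × Fin m ≃ Fin (N / b * m) := finProdFinEquiv
  let E' : (Fin (N / b * m) → Set (F × F)) → Fin N → Bool := fun y =>
    glue (fun i => E (fun j => y (e (i, j))))
  have hmono' : ∀ y y', (∀ j, y j ⊆ y' j) → E' y ≤ E' y' := by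
    intro y y' h p
    show glue _ p ≤ glue _ p
    unfold glue
    by_cases hp : p.val / b < N / b
    · rw [dif_pos hp, dif_pos hp]
      exact hmono _ _ (fun j => h _) _
    · rw [dif_neg hp, dif_neg hp]
  have hR' : ∀ y, InBlock b HalfClique (List.ofFn (E' y)) ↔ ∃ j, fPoly (F := F) d (y j) := by
    intro y
    refine (inBlock_glue hbpos _ _).trans ?_
    constructor
    · rintro ⟨i, hi⟩
      obtain ⟨j, hj⟩ := (hR _).1 hi
      exact ⟨e (i, j), hj⟩
    · rintro ⟨J, hJ⟩
      refine ⟨(e.symm J).1, (hR _).2 ⟨(e.symm J).2, ?_⟩⟩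
      rw [Prod.mk.eta, Equiv.apply_symm_apply]
      exact hJ
  have hnar' : ∀ y J p, ∃ T : Finset (F × F), T.card ≤ 1 ∧
      LeafOn T (fun X => E' (Function.update y J X) p = true) := by
    intro y J p
    by_cases hp : p.val / b < N / b
    · by_cases hJ : (⟨p.val / b, hp⟩ : Fin (N / b)) = (e.symm J).1
      · obtain ⟨T', hT1, hT2⟩ := hnar (fun j => y (e (⟨p.val / b, hp⟩, j))) (e.symm J).2
          ⟨p.val % b, Nat.mod_lt _ hbpos⟩
        refine ⟨T', hT1, ?_⟩
        have key : ∀ X, E' (Function.update y J X) p =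
            E (Function.update (fun j => y (e (⟨p.val / b, hp⟩, j))) (e.symm J).2 X)
              ⟨p.val % b, Nat.mod_lt _ hbpos⟩ := by
          intro X
          show glue _ p = _
          unfold glue
          rw [dif_pos hp]
          show E _ _ = E _ _
          congr 1
          funext j
          by_cases hj : j = (e.symm J).2
          · subst hj
            rw [Function.update_self, hJ, Prod.mk.eta, Equiv.apply_symm_apply,
              Function.update_self]
          · rw [Function.update_of_ne hj, Function.update_of_ne]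
            intro h
            apply hj
            have := congrArg e.symm h
            rw [Equiv.symm_apply_apply] at this
            rw [← this]
        simpa only [key] using hT2
      · refine ⟨∅, by simp, ?_⟩
        have key : ∀ X X', E' (Function.update y J X) p = E' (Function.update y J X') p := by
          intro X X'
          show glue _ p = glue _ p
          unfold glue
          rw [dif_pos hp, dif_pos hp]
          show E _ _ = E _ _
          congr 1
          funext j
          rw [Function.update_of_ne, Function.update_of_ne]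
          · intro h
            apply hJ
            have := congrArg e.symm h
            rw [Equiv.symm_apply_apply] at this
            rw [← this]
          · intro h
            apply hJ
            have := congrArg e.symm h
            rw [Equiv.symm_apply_apply] at this
            rw [← this]
        intro X X' _ h
        rw [key X' X]
        exact h
    · refine ⟨∅, by simp, ?_⟩
      intro X X' _ h
      have h9 : E' (Function.update y J X) p = false := by
        show glue _ p = _
        unfold glue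
        rw [dif_neg hp]
      rw [h9] at h
      exact absurd h (by simp)
  obtain ⟨x, hx1, hx2⟩ := chainR (m := N / b * m) htop hmon hT hval o τ (fPoly (F := F) d) hf0 E'
    hmono' (fun y => (ho (E' y)).trans (hR' y)) (by
      intro y J L g hL hg hlen hgf
      have := poly_lowerR (F := F) d lam hd (by rw [hq]) (by rw [hq]; exact h1) _ (by
        rintro _ ⟨b, hb, rfl⟩
        rcases hb with ⟨c, rfl⟩ | ⟨p, rfl⟩
        · exact ⟨∅, by simp, fun x x' _ => le_rfl⟩
        · obtain ⟨T', hT1, hT2⟩ := hnar' y J p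
          refine ⟨T', by omega, fun x x' h => ?_⟩
          show bit (E' (Function.update y J x)) p ≤ bit (E' (Function.update y J x')) p
          unfold bit
          by_cases hx : E' (Function.update y J x) p = true
          · rw [if_pos hx, if_pos (hT2 x x' h hx)]
          · rw [if_neg hx]
            split_ifs <;> norm_num) hL g hg τ hgf
      omega)
  have hle : (N / b) * (b / (2 ^ 23 * u ^ 2 * d ^ 4)) ≤ N / b * m := Nat.mul_le_mul_left _ hm
  refine ⟨x, fun i hi => hx1 i (by omega), fun i hi => ?_⟩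
  obtain ⟨y, hy1, hy2⟩ := hx2 i (by omega)
  rw [hy1, hR']
  push Not
  exact hy2

end

end Pool.Agent.W994.PL
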